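import Pool.Agent.H50.FdF

/-!
# MP_fd6f9a_an: a commutative radical Banach algebra in Class V but not in Class VI

The algebra is `ℓ¹(ℚ⁺, ω)` with `ω q = exp (h (level q) - q²)`, where `level q` is the least `n`
with `q * n!` an integer and `h` is a rapidly growing nondecreasing sequence.  It contains the
rational semigroup of point masses; a compactness argument on the lattices `(1/n!) ℕ` shows that a
real semigroup bounded on `[t/4, t]` vanishes at `t`, because an exact local semigroup of truncated
power series without constant term would have orders additive on an interval.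
-/

namespace Pool.Agent.Results.MP_fd6f9a_an.ClassVNotVI

theorem result :
    ∃ (R : Type) (_ : NonUnitalNormedCommRing R) (_ : NormedSpace ℂ R)
      (_ : IsScalarTower ℂ R R) (_ : SMulCommClass ℂ R R),
      -- `R` is a commutative complex Banach algebra without unit
      CompleteSpace R ∧ (¬ ∃ e : R, ∀ x : R, e * x = x) ∧
      -- every element of `R` has spectral radius zero
      (∀ x : R, spectralRadius ℂ (Unitization.inr x : Unitization ℂ R) = 0) ∧
      -- `R` is infinite-dimensional
      ¬ FiniteDimensional ℂ R ∧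
      -- Class V: some nonzero `a` lies in the norm closure of `a² R`
      (∃ a : R, a ≠ 0 ∧ a ∈ closure {y : R | ∃ x : R, y = a * a * x}) ∧
      -- and `R` contains a nonzero rational semigroup
      (∃ a : ℚ → R, (∀ s t : ℚ, 0 < s → 0 < t → a s * a t = a (s + t)) ∧
        ∃ t : ℚ, 0 < t ∧ a t ≠ 0) ∧
      -- not Class VI: there is no nonzero norm-continuous real semigroup
      (¬ ∃ a : ℝ → R, (∀ s t : ℝ, 0 < s → 0 < t → a s * a t = a (s + t)) ∧
        (∃ t : ℝ, 0 < t ∧ a t ≠ 0) ∧ ContinuousOn a (Set.Ioi 0)) ∧
      -- more strongly, a real semigroup which is norm-bounded on `[t/4, t]` vanishes at `t`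
      (∀ a : ℝ → R, (∀ s t : ℝ, 0 < s → 0 < t → a s * a t = a (s + t)) →
        ∀ t : ℝ, 0 < t → (∃ C : ℝ, ∀ s : ℝ, t / 4 ≤ s → s ≤ t → ‖a s‖ ≤ C) → a t = 0) :=
  Pool.Agent.H50.FdF.main

end Pool.Agent.Results.MP_fd6f9a_an.ClassVNotVI
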